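import Pool.Agent.Run7.h527.TP.Cb
import Pool.Agent.Run7.h496.PS.Gb

/-!
# Goldbach with a prime in `(√n, 4 √n)` for ALL even `n` near aliquot sums, cototients and arithmetic derivatives

`Good r δ n`: there are at least `δ 𝔖(n) √n / (log n) ^ 2` primes `p` with `√n < p < 4 √n` (the window of the conjecture) such
that `n - p` has at most `r` prime factors, all of them at least `n ^ (1 / 16) / 2`. The pair `(r, θ)` is admissible
(`Exponent r θ`) if `r = 2`, `θ > 13 / 22`, or `r = 3`, `θ = 2 / 9`, or `r = 4`, `θ = 1 / 29`, or `r ≥ 5`, `θ > 0` arbitrary.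

Let `g(m)` be the sum of the proper divisors of `m`, the cototient `m - φ(m)`, the arithmetic derivative `m'` (with `p' = 1`
for primes and Leibniz' rule), or any positive combination `α m + β f(m)` with `f = σ`, `φ` or the arithmetic derivative. Let
`G` have steps bounded below by a positive constant and growth at most `v^d`, let `(r, θ)` be admissible and
`d θ + κ < τ ≤ 1`. For all `m ≤ N` which have two prime factors `p ≠ q`, not dividing `m / (p q) ≥ 2`, with `p q ≥ m^τ`, but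
at most `N^(1 - η)` of them, ALL even `n` with `|n - G (g m)| ≤ g(m)^κ` are `Good r δ`. For `r = 5` and every `ε > 0` there are
`δ > 0` and `κ > 0` such that for ALL `m ≤ N` but `ε N` all these even numbers `n` are `Good 5 δ`.

Proof. Write `m = k p q`. Then `g(m) = a p q + b (p + q) + c` with integers `a ≠ 0`, `b`, `c` which depend on `k` only, and
`(a p + b) (a q + b) = a g(m) + b² - a c`. So for given `k ≤ N^(1 - τ)` every value is taken for at most `N^ε` pairs `p`, `q`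
(the tool `Run7/h527/TP`), and the exceptional even numbers are few (starting files `FewExceptionsAllScales` and
`SqrtWindowFewExceptions` of MP_b454d1_nt). For small `τ` all but `ε N` integers have two such primes, by the second moment of
the number of the prime factors in `(N^(τ / 2), N^(1 / 8))`.
-/

set_option autoImplicit false

namespace Pool.Agent.Results.MP_b58c63_nt.AliquotSums

open Finset
open Pool.Agent.N733.TG (Expanding expanding_pow)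
open Pool.Agent.Run7.h496.PS (Good Exponent)
open Run7.h527.TP (Bil Two win_nat density combine aliquot cototient deriv sig comb)

/-- **Goldbach with a prime in `(√n, 4 √n)` near the values of functions which are bilinear in two large primes.** Let
`(r, θ)` be admissible. There is `δ > 0` such that: let `g` be of the class `Bil`, let `G` have steps `≥ a > 0` and growth at
most `v^d`, `κ ≥ 0` and `d θ + κ < τ ≤ 1`; there is `η > 0` such that for all large `N`, for all `m ≤ N` with `Two τ m` but at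
most `N^(1 - η)`, ALL even `n ≥ 1` with `|n - G (g m)| ≤ g(m)^κ` are `Good r δ`. The admissible pairs: `r = 2`, `θ > 13 / 22`;
`r = 3`, `θ = 2 / 9`; `r = 4`, `θ = 1 / 29`; `r ≥ 5`, `θ > 0`. For every `ε > 0` there are `δ > 0` and `κ > 0` such that for all
such `g`, `G`, for all `m ≤ N` but `ε N`, ALL even `n` with `|n - G (g m)| ≤ g(m)^κ` are `Good 5 δ`. The sum of the proper
divisors, the cototient, the arithmetic derivative and their positive combinations with the identity are examples of `g`. -/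
theorem result :
    (∀ (r : ℕ) (θ : ℝ), Exponent r θ → ∃ δ : ℝ, 0 < δ ∧ ∀ g : ℕ → ℕ, Bil g → ∀ (G : ℕ → ℝ) (d : ℝ), Expanding G d →
      ∀ κ τ : ℝ, 0 ≤ κ → d * θ + κ < τ → τ ≤ 1 → ∃ η : ℝ, 0 < η ∧ ∃ N₀ : ℕ, ∀ N : ℕ, N₀ ≤ N →
      ({m : ℕ | 1 ≤ m ∧ m ≤ N ∧ Two τ m ∧
        ¬ ∀ n : ℕ, 1 ≤ n → Even n → |(n : ℝ) - G (g m)| ≤ (g m : ℝ) ^ κ → Good r δ n}.ncard : ℝ) ≤ (N : ℝ) ^ (1 - η)) ∧
    ((∀ θ : ℝ, 13 / 22 < θ → Exponent 2 θ) ∧ Exponent 3 (2 / 9) ∧ Exponent 4 (1 / 29) ∧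
      ∀ (r : ℕ) (θ : ℝ), 5 ≤ r → 0 < θ → Exponent r θ) ∧
    (∀ d ε : ℝ, 1 ≤ d → 0 < ε → ∃ δ κ : ℝ, 0 < δ ∧ 0 < κ ∧ ∀ g : ℕ → ℕ, Bil g → ∀ G : ℕ → ℝ, Expanding G d →
      ∃ N₀ : ℕ, ∀ N : ℕ, N₀ ≤ N →
      ({m : ℕ | 1 ≤ m ∧ m ≤ N ∧
        ¬ ∀ n : ℕ, 1 ≤ n → Even n → |(n : ℝ) - G (g m)| ≤ (g m : ℝ) ^ κ → Good 5 δ n}.ncard : ℝ) ≤ ε * N) ∧
    (Bil aliquot ∧ Bil cototient ∧ Bil deriv ∧
      (∀ α β : ℤ, (∀ m : ℕ, 2 ≤ m → 0 < α * m + β * sig m) → Bil (comb α β sig)) ∧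
      (∀ α β : ℤ, (∀ m : ℕ, 2 ≤ m → 0 < α * m + β * Nat.totient m) → Bil (comb α β Nat.totient)) ∧
      ∀ α β : ℤ, (∀ m : ℕ, 2 ≤ m → 0 < α * m + β * deriv m) → Bil (comb α β deriv)) ∧
    ∀ α d : ℝ, 0 < α → 1 ≤ d → Expanding (fun v => α * (v : ℝ) ^ d) d := by
  classical
  have one : ∀ (r : ℕ) (θ : ℝ), Exponent r θ → ∃ δ : ℝ, 0 < δ ∧ ∀ g : ℕ → ℕ, Bil g → ∀ (G : ℕ → ℝ) (d : ℝ),
      Expanding G d → ∀ κ τ : ℝ, 0 ≤ κ → d * θ + κ < τ → τ ≤ 1 → ∃ η : ℝ, 0 < η ∧ ∃ N₀ : ℕ, ∀ N : ℕ, N₀ ≤ N →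
      ({m : ℕ | 1 ≤ m ∧ m ≤ N ∧ Two τ m ∧
        ¬ ∀ n : ℕ, 1 ≤ n → Even n → |(n : ℝ) - G (g m)| ≤ (g m : ℝ) ^ κ → Good r δ n}.ncard : ℝ) ≤ (N : ℝ) ^ (1 - η) := by
    intro r θ hr
    obtain ⟨δ, hδ, C, hC, hS⟩ := Pool.Agent.Run7.h496.PS.sparse hr
    have hθ := (Pool.Agent.Run7.h496.PS.exponent_pos hr).le
    refine ⟨δ, hδ, fun g hg G d hG κ τ hκ h1 hτ => ?_⟩
    obtain ⟨η, hη, N₀, hN₀⟩ := win_nat {n : ℕ | Even n ∧ ¬ Good r δ n} hg hG (s := θ) (κ := κ) hθ hκ h1 hτ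
      (fun ε hε => by
        refine ⟨C, fun X hX => ?_⟩
        have hX1 : (1 : ℝ) ≤ X := by exact_mod_cast hX
        refine le_trans (le_of_eq ?_) ((hS X hX).trans (mul_le_mul_of_nonneg_left
          (Real.rpow_le_rpow_of_exponent_le hX1 (by linarith)) hC.le))
        apply congrArg (fun n : ℕ => (n : ℝ))
        apply congrArg Finset.card
        ext n
        simp only [mem_filter, mem_Ioc, mem_Icc, Set.mem_ofPred_eq]
        exact ⟨fun h => ⟨⟨h.1.1, h.1.2⟩, h.2⟩, fun h => ⟨⟨h.1.1, h.1.2⟩, h.2⟩⟩)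
    refine ⟨η, hη, N₀, fun N hN => le_trans ?_ (hN₀ N hN)⟩
    have hfin : {m : ℕ | 1 ≤ m ∧ m ≤ N ∧ Two τ m ∧ ∃ n : ℕ, (n = 0 ∨ n ∈ {n : ℕ | Even n ∧ ¬ Good r δ n}) ∧
        |(n : ℝ) - G (g m)| ≤ (g m : ℝ) ^ κ}.Finite :=
      (Set.finite_Icc 1 N).subset fun m hm => ⟨hm.1, hm.2.1⟩
    have hsub : {m : ℕ | 1 ≤ m ∧ m ≤ N ∧ Two τ m ∧
        ¬ ∀ n : ℕ, 1 ≤ n → Even n → |(n : ℝ) - G (g m)| ≤ (g m : ℝ) ^ κ → Good r δ n} ⊆
        {m : ℕ | 1 ≤ m ∧ m ≤ N ∧ Two τ m ∧ ∃ n : ℕ, (n = 0 ∨ n ∈ {n : ℕ | Even n ∧ ¬ Good r δ n}) ∧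
        |(n : ℝ) - G (g m)| ≤ (g m : ℝ) ^ κ} := by
      rintro m ⟨h2, h3, h3', h4⟩
      push Not at h4
      obtain ⟨n, hn1, hne, h5, h6⟩ := h4
      exact ⟨h2, h3, h3', n, Or.inr ⟨hne, h6⟩, h5⟩
    exact_mod_cast Set.ncard_le_ncard hsub hfin
  refine ⟨one, ⟨fun θ h => Or.inl ⟨rfl, h⟩, Pool.Agent.Run7.h496.PS.exponent_three,
    Pool.Agent.Run7.h496.PS.exponent_four, fun r θ h h' => Pool.Agent.Run7.h496.PS.exponent_five h h'⟩,
    fun d ε hd hε => ?_, Run7.h527.TP.examples, fun α d hα hd => expanding_pow hα hd⟩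
  obtain ⟨τ, hτ0, hτ1, hden⟩ := density (ε / 2) (by positivity)
  have hθ0 : 0 < τ / (4 * d) := by positivity
  obtain ⟨δ, hδ, h⟩ := one 5 (τ / (4 * d)) (Pool.Agent.Run7.h496.PS.exponent_five le_rfl hθ0)
  refine ⟨δ, τ / 2, hδ, by linarith, fun g hg G hG => combine hε hden _ (h g hg G d hG (τ / 2) τ (by linarith) ?_ hτ1)⟩
  have h4 : d * (τ / (4 * d)) = τ / 4 := by field_simp
  linarith

end Pool.Agent.Results.MP_b58c63_nt.AliquotSums
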