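import Mathlib
import Pool.Agent.Run7.h251.SP.Inp
import Pool.Agent.Run7.h251.SP.One
import Pool.Agent.Run7.h251.SP.Dig

set_option autoImplicit false

/-!
# Goldbach partitions with a prime in all short windows

Uses project MK of this run (systems at prime arguments, `Run7.h18.MK.sysp_fin`) and the theorem of helper469 on numbers
near good approximations (`Run7.h469.GA.main`).
-/

open Finset Filter Topology MeasureTheory

namespace Pool.Agent.Results.MP_b58c63_nt.AllShortWindows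

/-- The partial product of the singular series of `n`, over the primes `p ≤ z`; the local factor is `1 / (1 - 1/p)` if `p`
divides `n` and `(1 - 2/p) / (1 - 1/p)^2` if not. -/
noncomputable def series (n z : ℕ) : ℝ :=
  ∏ p ∈ (Icc 1 z).filter Nat.Prime, (if p ∣ n then 1 / (1 - 1 / (p : ℝ)) else (1 - 2 / (p : ℝ)) / (1 - 1 / (p : ℝ)) ^ 2)

/-- The sum of `log p log (n - p)` over the primes `p` with `y < p ≤ y'` for which `n - p` is a prime. -/
noncomputable def count (n y y' : ℕ) : ℝ :=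
  ∑ p ∈ (Ioc y y').filter (fun p : ℕ => p.Prime ∧ (n - p).Prime), Real.log p * Real.log ((n - p : ℕ) : ℝ)

/-- `(y, y']` is a window for `n` : `n ^ (1/3 + δ) ≤ y' ≤ n ^ (1 - δ)`. -/
def Window (δ : ℝ) (n y y' : ℕ) : Prop := y ≤ y' ∧ (n : ℝ) ^ (1 / 3 + δ) ≤ y' ∧ (y' : ℝ) ≤ (n : ℝ) ^ (1 - δ)

/-- The asymptotic formula in all windows: the singular series of `n` converges, and if `h` is its sum, then for ALL
windows the primes `p` of `(y, y']` for which `n - p` is prime, counted with the logarithms, number `h (y' - y)` up to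
`y' / (log n) ^ W`. -/
def Formula (δ : ℝ) (W n : ℕ) : Prop :=
  ∃ h : ℝ, Tendsto (series n) atTop (𝓝 h) ∧ ∀ y y' : ℕ, Window δ n y y' →
    |count n y y' - h * ((y' : ℝ) - y)| ≤ y' / Real.log n ^ W

/-- In ALL windows `(y, y']` of length at least `y' / (log n) ^ W` there is a prime `p` such that `n - p` is prime. -/
def AllWindows (δ : ℝ) (W n : ℕ) : Prop := ∀ y y' : ℕ, Window δ n y y' → (y' : ℝ) / Real.log n ^ W ≤ (y' : ℝ) - y →
  ∃ p ∈ Ioc y y', p.Prime ∧ (n - p).Prime

/-- The assertion of the question for the number `n`. -/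
def Question (n : ℕ) : Prop := ∃ p q : ℕ, p.Prime ∧ q.Prime ∧ p ≠ q ∧ p + q = n ∧ Real.sqrt n < p ∧ (p : ℝ) < 4 * Real.sqrt n

/-- The asymptotic formula, and for even `n` also a prime in all windows and the assertion of the question. -/
def Good (δ : ℝ) (W n : ℕ) : Prop := Formula δ W n ∧ (Even n → AllWindows δ W n ∧ Question n)

/-- `q ≥ 1`, and the rational tuple `p / q` approximates `α` up to `(log q)^T / q^(1 + 1/d)` in all coordinates. -/
def GoodApproximation (d T : ℕ) (α : Fin d → ℝ) (p : Fin d → ℤ) (q : ℕ) : Prop :=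
  1 ≤ q ∧ ∀ i, |α i - p i / q| ≤ Real.log q ^ T / (q : ℝ) ^ (1 + 1 / (d : ℝ))

/-- `n = u_1 p_1 + … + u_d p_d + v q + w` is positive, where `(u, v) ≠ (0, 0)` and all the integers `u_i`, `v`, `w` are at
most `(log q)^T` in absolute value. -/
def Near {d : ℕ} (T : ℕ) (p : Fin d → ℤ) (q n : ℕ) : Prop :=
  0 < n ∧ ∃ (u : Fin d → ℤ) (v w : ℤ), (u ≠ 0 ∨ v ≠ 0) ∧ (∀ i, (|u i| : ℝ) ≤ Real.log q ^ T) ∧
    (|v| : ℝ) ≤ Real.log q ^ T ∧ (|w| : ℝ) ≤ Real.log q ^ T ∧ (n : ℤ) = ∑ i, u i * p i + v * q + w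

theorem roots_one (n : ℕ) {p : ℕ} (hp : p.Prime) :
    Run7.h251.SP.roots (fun _ : Fin 1 => n) p = if p ∣ n then 1 else 2 := by
  have hpi : Prime (p : ℤ) := Nat.prime_iff_prime_int.1 hp
  unfold Run7.h251.SP.roots
  have h1 : (range p).filter (fun r : ℕ => (p : ℤ) ∣ (r : ℤ) * ∏ _i : Fin 1, ((n : ℤ) - (r : ℤ))) = {0, n % p} := by
    ext r
    rw [mem_filter, mem_range, mem_insert, mem_singleton, Fin.prod_univ_one]
    constructor
    · rintro ⟨h1, h2⟩
      rcases hpi.dvd_or_dvd h2 with h3 | h3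
      · left
        rw [Int.natCast_dvd_natCast] at h3
        exact Nat.eq_zero_of_dvd_of_lt h3 h1
      · right
        have h4 : r ≡ n [MOD p] := Nat.modEq_iff_dvd.2 h3
        have h5 : r % p = r := Nat.mod_eq_of_lt h1
        rw [← h5]
        exact h4
    · rintro (rfl | rfl)
      · exact ⟨hp.pos, by simp⟩
      · refine ⟨Nat.mod_lt _ hp.pos, Dvd.dvd.mul_left ?_ _⟩
        exact Nat.modEq_iff_dvd.1 (Nat.mod_modEq _ _)
  rw [h1]
  split_ifs with h
  · rw [Nat.dvd_iff_mod_eq_zero.1 h]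
    simp
  · rw [card_pair]
    intro h2
    exact h (Nat.dvd_of_mod_eq_zero h2.symm)

theorem series_eq (n z : ℕ) : series n z = Run7.h251.SP.series (fun _ : Fin 1 => n) z := by
  unfold series Run7.h251.SP.series Run7.h251.SP.fac
  refine prod_congr rfl fun p hp => ?_
  have hpp := (mem_filter.1 hp).2
  rw [roots_one n hpp]
  have h2 : (2 : ℝ) ≤ p := by exact_mod_cast hpp.two_le
  have h3 : 1 - 1 / (p : ℝ) ≠ 0 := by
    have : 1 / (p : ℝ) < 1 := by
      rw [div_lt_one (by linarith)]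
      linarith
    linarith
  split_ifs with h
  · push_cast
    field_simp
  · push_cast
    ring

theorem formula_of {δ : ℝ} {W n : ℕ} (h : Run7.h251.SP.Good δ W (fun _ : Fin 1 => n)) : Formula δ W n := by
  obtain ⟨h, h1, h2⟩ := h
  rw [Run7.h251.SP.top_one] at h2
  refine ⟨h, ?_, fun y y' hw => ?_⟩
  · have : series n = Run7.h251.SP.series (fun _ : Fin 1 => n) := funext fun z => series_eq n z
    rw [this]
    exact h1
  · have h3 := h2 y y' hw.1 hw.2.1 hw.2.2
    have h4 : count n y y' = Run7.h251.SP.count (fun _ : Fin 1 => n) y y' := by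
      unfold count Run7.h251.SP.count
      simp only [forall_const, Fin.prod_univ_one]
    rw [h4]
    exact h3

theorem sparse_good (δ : ℝ) (hδ : 0 < δ) (W : ℕ) : Run7.h251.SP.Sparse 1 (fun a => Good δ W (a 0)) := by
  obtain ⟨M₀, hM₀⟩ := Run7.h251.SP.exists_common 1 W δ
  obtain ⟨n₀, hn₀⟩ := Run7.h251.SP.question (1 / 12) (by norm_num)
  apply Run7.h251.SP.sparse_imp le_rfl (Run7.h251.SP.sparse_and (Run7.h251.SP.sparse_good 1 le_rfl δ hδ (W + 1))
    (Run7.h251.SP.sparse_good 1 le_rfl (1 / 12) (by norm_num) 2)) (M₀ + n₀ + 3)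
  rintro a ha ⟨h1, h2⟩
  have e : a = fun _ : Fin 1 => a 0 := by
    funext i
    rw [Subsingleton.elim i 0]
  rw [e, Run7.h251.SP.top_one] at ha
  rw [e] at h1 h2
  refine ⟨formula_of (Run7.h251.SP.good_mono (by rw [Run7.h251.SP.top_one]; omega) h1), fun heven => ⟨?_, ?_⟩⟩
  · intro y y' hw hlen
    have h3 := hM₀ (fun _ : Fin 1 => a 0) (Run7.h251.SP.admissible_even heven) h1
      (by rw [Run7.h251.SP.top_one]; omega) y y' hw.1
    rw [Run7.h251.SP.top_one] at h3
    obtain ⟨p, hp, hp1, hp2⟩ := h3 hw.2.1 hw.2.2 hlen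
    exact ⟨p, hp, hp1, hp2 0⟩
  · exact hn₀ (a 0) (by omega) heven h2

/-- **Goldbach partitions with a prime in all short windows.** Let `δ > 0`.

(1) There is `c > 0` such that the sum of the singular series of an even number, if the series converges, is at least `c`.

(2) For all `W`, `A` and all large `X`, all but at most `X / (log X) ^ A` of the `n ≤ X` are good: they satisfy the
asymptotic formula in all windows; and if `n` is even, then in all windows of length at least `y' / (log n) ^ W` there is a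
prime `p` with `n - p` prime, and `n` satisfies the assertion of the question.

(3) For every `d ≥ 1` and almost every real tuple `α` of length `d`, for all but finitely many of the good approximations
`p / q` of `α`: ALL positive integers near a small combination of `p_1`, …, `p_d`, `q` are good.

(4) For every sequence `λ_n ≥ exp (n ^ ε)`, `ε > 0`, and almost every real number `x`: for all but finitely many `n` ALL
positive integers `N` with `|N - λ_n |x|| ≤ (log λ_n) ^ T` are good. -/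
theorem result (δ : ℝ) (hδ : 0 < δ) :
    (∃ c : ℝ, 0 < c ∧ ∀ (n : ℕ) (h : ℝ), Even n → Tendsto (series n) atTop (𝓝 h) → c ≤ h) ∧
    (∀ W A : ℕ, ∃ X₀ : ℕ, ∀ X : ℕ, X₀ ≤ X → ∀ E : Finset ℕ, (∀ n ∈ E, 1 ≤ n ∧ n ≤ X ∧ ¬ Good δ W n) →
      (E.card : ℝ) ≤ X / Real.log X ^ A) ∧
    (∀ d W T : ℕ, 1 ≤ d → ∀ᵐ α : Fin d → ℝ, {z : (Fin d → ℤ) × ℕ | GoodApproximation d T α z.1 z.2 ∧
      ∃ n : ℕ, Near T z.1 z.2 n ∧ ¬ Good δ W n}.Finite) ∧
    (∀ (W T : ℕ) (ε : ℝ) (lam : ℕ → ℝ), 0 < ε → (∀ n : ℕ, Real.exp ((n : ℝ) ^ ε) ≤ lam n) →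
      ∀ᵐ x : ℝ, ∀ᶠ n : ℕ in atTop, ∀ N : ℕ, 1 ≤ N → |((N : ℝ) - lam n * |x|)| ≤ Real.log (lam n) ^ T → Good δ W N) := by
  refine ⟨?_, fun W A => ?_, fun d W T hd => ?_, fun W T ε lam hε hlam => ?_⟩
  · refine ⟨Run7.h251.SP.low 1, Run7.h251.SP.low_pos 1, fun n h h1 h2 => ?_⟩
    have : series n = Run7.h251.SP.series (fun _ : Fin 1 => n) := funext fun z => series_eq n z
    rw [this] at h2
    exact Run7.h251.SP.low_le (fun _ : Fin 1 => n) h2 (Run7.h251.SP.admissible_even h1)
  · obtain ⟨X₀, h⟩ := sparse_good δ hδ W A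
    refine ⟨X₀, fun X hX E hE => ?_⟩
    have h1 := h X hX (E.image (fun n => fun _ : Fin 1 => n)) (by
      intro a ha
      rw [mem_image] at ha
      obtain ⟨n, hn, rfl⟩ := ha
      obtain ⟨g1, g2, g3⟩ := hE n hn
      exact ⟨fun _ => ⟨g1, g2⟩, g3⟩)
    rw [card_image_of_injective, pow_one] at h1
    · exact h1
    · intro a b hab
      exact congrFun hab 0
  · exact Run7.h469.GA.main _ (Run7.h251.SP.thin_of_sparse (sparse_good δ hδ W)) d T hd
  · have h := Run7.h251.SP.near_seq (k := 1) _ (sparse_good δ hδ W) ε hε lam hlam T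
    have hmp := (MeasureTheory.volume_preserving_funUnique (Fin 1) ℝ).symm
    have h2 := hmp.quasiMeasurePreserving.ae h
    filter_upwards [h2] with x hx
    filter_upwards [hx] with n hn N hN1 hN2
    have h3 := hn (fun _ => N) (fun _ => hN1) (fun i => hN2)
    exact h3

end Pool.Agent.Results.MP_b58c63_nt.AllShortWindows
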