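import Pool.Agent.Run7.h496.PS.Gb

/-!
# Goldbach with a prime in `(√N, 4 √N)`: ALL even members of almost all trajectories of the `3 x + 1` map

`Good r δ N`: there are at least `δ 𝔖(N) √N / (log N) ^ 2` primes `p` with `√N < p < 4 √N` (the window of the conjecture)
such that `N - p` has at most `r` prime factors, all of them at least `N ^ (1 / 16) / 2`.
The pair `(r, θ)` is admissible (`Exponent r θ`) if `r = 2`, `θ > 13 / 22`, or `r = 3`, `θ = 2 / 9`, or `r = 4`, `θ = 1 / 29`, or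
`r ≥ 5`, `θ > 0` arbitrary (in general `θ > 2 / Λ_r - 1 / 2`, with Richert's constant `Λ_r`, for `r ≥ 3`).

Let `q` be odd and let `T(x) = x / 2` for even and `(q x + c) / 2` for odd `x`. All `m ≤ X` but
`X ^ (θ + κ (log (1 + q ^ θ) - θ log 2) + ε)` have the property that ALL the even numbers `N = u T^k(m) + w` with
`k ≤ κ log X`, `1 ≤ u ≤ X ^ η`, `|w| ≤ X ^ η` are `Good r δ`, if the exponent (for `ε = 0`) is less than `1`.

For the map of Collatz (`q = 3`, `c = 1`) one can take `κ = 0.6`, `1.15`, `1.4` for `r = 2`, `3`, `4`, with `X ^ 0.999` exceptions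
(a typical trajectory reaches `1` after about `6.95 log m` steps). For `r ≥ 5` every `κ < 1 / log 2 = 1.44...` is possible, for
all `q` and `c`, with `X ^ (κ log 2 + ε)` exceptions.

Proof. The exceptional set of the problem has at most `C X ^ θ` elements up to `X` (starting files, `FewExceptionsAllScales`,
`RoughSummandShortPrime`, and `SqrtWindowFewExceptions` of MP_b454d1_nt). On a residue class `r` modulo `2^k` the map `T^k` is
affine, `T^k(2^k v + r) = q^a v + T^k(r)`, where `a` is the number of the odd members among the first `k`, and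
`∑_r z^(a(r)) = (1 + z)^k`.
-/

set_option autoImplicit false

namespace Pool.Agent.Results.MP_b58c63_nt.CollatzTrajectories

open Finset Topology
open Filter
open Pool.Agent.Run7.h496.PS (Good Exponent)

/-- the `q x + c` map, `x ↦ x / 2` for even `x` and `x ↦ (q x + c) / 2` for odd `x`; `T 3 1` is the map of Collatz -/
def T (q c x : ℕ) : ℕ := if x % 2 = 0 then x / 2 else (q * x + c) / 2

open Classical in
/-- The `m ≤ X` such that for some `k ≤ κ log X`, `1 ≤ u ≤ X ^ η` and some integer `w`, `|w| ≤ X ^ η`, the number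
`N = u T^k(m) + w` is positive and even, but not `Good r δ`. -/
noncomputable def exceptionalStarts (q c r : ℕ) (δ κ η : ℝ) (X : ℕ) : Finset ℕ :=
  (Icc 1 X).filter (fun m => ∃ (k u N : ℕ) (w : ℤ), (k : ℝ) ≤ κ * Real.log X ∧ 1 ≤ u ∧ (u : ℝ) ≤ (X : ℝ) ^ η ∧
    |(w : ℝ)| ≤ (X : ℝ) ^ η ∧ 1 ≤ N ∧ (N : ℤ) = u * ((T q c)^[k] m : ℕ) + w ∧ Even N ∧ ¬ Good r δ N)

theorem starts (q c r : ℕ) (hq : Odd q) (θ κ ε δ : ℝ) (hθ0 : 0 ≤ θ) (hθ1 : θ < 1) (hκ0 : 0 ≤ κ) (hε : 0 < ε)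
    (hβ1 : θ + κ * (Real.log (1 + (q : ℝ) ^ θ) - θ * Real.log 2) < 1)
    (hE : Pool.Agent.Run7.h496.PS.Sparse θ (fun N => Even N ∧ ¬ Good r δ N)) :
    ∃ η : ℝ, 0 < η ∧ ∃ X₀ : ℕ, ∀ X : ℕ, X₀ ≤ X → ((exceptionalStarts q c r δ κ η X).card : ℝ) ≤
      (X : ℝ) ^ (θ + κ * (Real.log (1 + (q : ℝ) ^ θ) - θ * Real.log 2) + ε) :=
  Pool.Agent.Run7.h496.PS.trajectories (c := c) hq θ κ _ ε hθ0 hθ1 hκ0 rfl hβ1 hε hE

/-- an upper bound for a root of three -/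
theorem three_rpow_le (a : ℝ) (n m : ℕ) (hn : n ≠ 0) (ha : 0 ≤ a) (h : (3 : ℝ) ^ m ≤ a ^ n) :
    ((3 : ℕ) : ℝ) ^ ((m : ℝ) / n) ≤ a := by
  have hn' : (n : ℝ) ≠ 0 := by exact_mod_cast hn
  calc ((3 : ℕ) : ℝ) ^ ((m : ℝ) / n) = ((3 : ℝ) ^ m) ^ ((1 : ℝ) / n) := by
        rw [← Real.rpow_natCast (3 : ℝ) m, ← Real.rpow_mul (by norm_num)]
        congr 1
        field_simp
    _ ≤ (a ^ n) ^ ((1 : ℝ) / n) := Real.rpow_le_rpow (by positivity) h (by positivity)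
    _ = a := by
        rw [← Real.rpow_natCast a n, ← Real.rpow_mul ha]
        rw [mul_one_div_cancel hn', Real.rpow_one]

/-- `κ = 0.6` for the map of Collatz and two prime factors -/
theorem collatz_two : (3 / 5 : ℝ) + 3 / 5 * (Real.log (1 + ((3 : ℕ) : ℝ) ^ ((3 : ℝ) / 5)) -
    3 / 5 * Real.log 2) ≤ 9975 / 10000 := by
  have h2' := Real.log_two_gt_d9
  have h2 := Real.log_two_lt_d9
  have h3 : ((3 : ℕ) : ℝ) ^ ((3 : ℝ) / 5) ≤ 1934 / 1000 := by
    have := three_rpow_le (1934 / 1000) 5 3 (by norm_num) (by norm_num) (by norm_num)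
    norm_num at this ⊢
    exact this
  -- `2.934 ^ 2 ≤ 8.6084`, `log 8.6084 = 3 log 2 + log 1.07605`
  have h5 : Real.log (1 + ((3 : ℕ) : ℝ) ^ ((3 : ℝ) / 5)) ≤ 1 / 2 * (3 * Real.log 2 + 7605 / 100000) := by
    have h6 : Real.log (1 + ((3 : ℕ) : ℝ) ^ ((3 : ℝ) / 5)) ≤ Real.log (2934 / 1000) := by
      apply Real.log_le_log (by positivity)
      linarith
    have h7 : 2 * Real.log (2934 / 1000) ≤ 3 * Real.log 2 + 7605 / 100000 := by
      have e1 : 2 * Real.log (2934 / 1000 : ℝ) = Real.log ((2934 / 1000) ^ 2) := by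
        rw [Real.log_pow]; norm_num
      have e2 : Real.log ((2934 / 1000 : ℝ) ^ 2) ≤ Real.log (2 ^ 3 * (107605 / 100000)) := by
        apply Real.log_le_log (by norm_num)
        norm_num
      have e4 : Real.log ((2 : ℝ) ^ 3) = 3 * Real.log 2 := by
        rw [Real.log_pow]; norm_num
      rw [Real.log_mul (by norm_num) (by norm_num), e4, ← e1] at e2
      have e3 := Real.log_le_sub_one_of_pos (show (0 : ℝ) < 107605 / 100000 by norm_num)
      linarith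
    linarith
  linarith

/-- `κ = 1.15` for the map of Collatz and three prime factors -/
theorem collatz_three : (2 / 9 : ℝ) + 23 / 20 * (Real.log (1 + ((3 : ℕ) : ℝ) ^ ((2 : ℝ) / 9)) -
    2 / 9 * Real.log 2) ≤ 9975 / 10000 := by
  have h2' := Real.log_two_gt_d9
  have h2 := Real.log_two_lt_d9
  have h3 : ((3 : ℕ) : ℝ) ^ ((2 : ℝ) / 9) ≤ 12766 / 10000 := by
    have := three_rpow_le (12766 / 10000) 9 2 (by norm_num) (by norm_num) (by norm_num)
    norm_num at this ⊢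
    exact this
  have h5 : Real.log (1 + ((3 : ℕ) : ℝ) ^ ((2 : ℝ) / 9)) ≤ Real.log 2 + 134 / 1000 := by
    have h6 : Real.log (1 + ((3 : ℕ) : ℝ) ^ ((2 : ℝ) / 9)) ≤ Real.log (2 * (1067 / 1000) ^ 2) := by
      apply Real.log_le_log (by positivity)
      have : (22766 / 10000 : ℝ) ≤ 2 * (1067 / 1000) ^ 2 := by norm_num
      linarith
    rw [Real.log_mul (by norm_num) (by norm_num), Real.log_pow] at h6
    have h7 := Real.log_le_sub_one_of_pos (show (0 : ℝ) < 1067 / 1000 by norm_num)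
    push_cast at h6
    linarith
  linarith

/-- `κ = 1.4` for the map of Collatz and four prime factors -/
theorem collatz_four : (1 / 29 : ℝ) + 7 / 5 * (Real.log (1 + ((3 : ℕ) : ℝ) ^ ((1 : ℝ) / 29)) -
    1 / 29 * Real.log 2) ≤ 9986 / 10000 := by
  have h2 := Real.log_two_lt_d9
  have h2' := Real.log_two_gt_d9
  have h3 : ((3 : ℕ) : ℝ) ^ ((1 : ℝ) / 29) ≤ 10387 / 10000 := by
    have h4 : (3 : ℝ) ≤ (10387 / 10000) ^ 29 := by norm_num
    calc ((3 : ℕ) : ℝ) ^ ((1 : ℝ) / 29) = (3 : ℝ) ^ ((1 : ℝ) / 29) := by norm_num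
      _ ≤ (((10387 / 10000 : ℝ)) ^ 29) ^ ((1 : ℝ) / 29) := Real.rpow_le_rpow (by norm_num) h4 (by norm_num)
      _ = 10387 / 10000 := by
          rw [← Real.rpow_natCast, ← Real.rpow_mul (by norm_num)]
          norm_num
  have h5 : Real.log (1 + ((3 : ℕ) : ℝ) ^ ((1 : ℝ) / 29)) ≤ Real.log 2 + 387 / 20000 := by
    have h6 : Real.log (1 + ((3 : ℕ) : ℝ) ^ ((1 : ℝ) / 29)) ≤ Real.log (2 * (20387 / 20000)) := by
      apply Real.log_le_log (by positivity)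
      linarith
    rw [Real.log_mul (by norm_num) (by norm_num)] at h6
    have h7 := Real.log_le_sub_one_of_pos (show (0 : ℝ) < 20387 / 20000 by norm_num)
    linarith
  linarith

/-- small exponents -/
theorem small_exponent (q : ℕ) (κ ρ : ℝ) (hρ : 0 < ρ) : ∃ θ : ℝ, 0 < θ ∧ θ < 1 ∧
    θ + κ * (Real.log (1 + (q : ℝ) ^ θ) - θ * Real.log 2) < κ * Real.log 2 + ρ ∨ q = 0 := by
  rcases Nat.eq_zero_or_pos q with h0 | h0
  · exact ⟨0, Or.inr h0⟩
  have hq : (0 : ℝ) < q := by exact_mod_cast h0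
  have hcont : ContinuousAt (fun θ : ℝ => θ + κ * (Real.log (1 + (q : ℝ) ^ θ) - θ * Real.log 2)) 0 := by
    apply ContinuousAt.add continuousAt_id
    apply ContinuousAt.mul continuousAt_const
    apply ContinuousAt.sub _ (continuousAt_id.mul continuousAt_const)
    apply ContinuousAt.log
    · apply ContinuousAt.add continuousAt_const
      exact ContinuousAt.rpow continuousAt_const continuousAt_id (Or.inl hq.ne')
    · positivity
  have h1 : (0 : ℝ) + κ * (Real.log (1 + (q : ℝ) ^ (0 : ℝ)) - 0 * Real.log 2) < κ * Real.log 2 + ρ := by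
    rw [Real.rpow_zero]
    norm_num
    exact hρ
  have h2 := hcont.eventually_lt_const h1
  have h3 : ∀ᶠ θ : ℝ in 𝓝[>] 0, θ + κ * (Real.log (1 + (q : ℝ) ^ θ) - θ * Real.log 2) < κ * Real.log 2 + ρ :=
    h2.filter_mono nhdsWithin_le_nhds
  have h4 : ∀ᶠ θ : ℝ in 𝓝[>] 0, θ < 1 := (gt_mem_nhds (show (0 : ℝ) < 1 by norm_num)).filter_mono nhdsWithin_le_nhds
  obtain ⟨θ, ⟨h5, h6⟩, h7⟩ := ((h3.and h4).and self_mem_nhdsWithin).exists
  exact ⟨θ, Or.inl ⟨h7, h6, h5⟩⟩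

/-- **Goldbach with a prime in `(√N, 4 √N)` along trajectories.** Part 1: all maps `q x + c`. Part 2: the exponents. Part 3:
the map of Collatz, two, three and four prime factors. Part 4: five prime factors. -/
theorem result :
    (∀ (r : ℕ) (θ : ℝ), Exponent r θ → θ < 1 → ∃ δ : ℝ, 0 < δ ∧
      ∀ q c : ℕ, Odd q → ∀ κ ε : ℝ, 0 ≤ κ → 0 < ε →
        θ + κ * (Real.log (1 + (q : ℝ) ^ θ) - θ * Real.log 2) < 1 →
        ∃ η : ℝ, 0 < η ∧ ∃ X₀ : ℕ, ∀ X : ℕ, X₀ ≤ X → ((exceptionalStarts q c r δ κ η X).card : ℝ) ≤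
          (X : ℝ) ^ (θ + κ * (Real.log (1 + (q : ℝ) ^ θ) - θ * Real.log 2) + ε)) ∧
    ((∀ θ : ℝ, 13 / 22 < θ → Exponent 2 θ) ∧ Exponent 3 (2 / 9) ∧ Exponent 4 (1 / 29) ∧
      ∀ (r : ℕ) (θ : ℝ), 5 ≤ r → 0 < θ → Exponent r θ) ∧
    (∀ (r : ℕ) (κ : ℝ), (r = 2 ∧ κ = 3 / 5 ∨ r = 3 ∧ κ = 23 / 20 ∨ r = 4 ∧ κ = 7 / 5) →
      ∃ δ : ℝ, 0 < δ ∧ ∃ η : ℝ, 0 < η ∧ ∃ X₀ : ℕ, ∀ X : ℕ, X₀ ≤ X →
        ((exceptionalStarts 3 1 r δ κ η X).card : ℝ) ≤ (X : ℝ) ^ (999 / 1000 : ℝ)) ∧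
    (∀ r : ℕ, 5 ≤ r → ∀ q c : ℕ, Odd q → ∀ κ ε : ℝ, 0 ≤ κ → κ * Real.log 2 < 1 → 0 < ε →
      ∃ δ : ℝ, 0 < δ ∧ ∃ η : ℝ, 0 < η ∧ ∃ X₀ : ℕ, ∀ X : ℕ, X₀ ≤ X →
        ((exceptionalStarts q c r δ κ η X).card : ℝ) ≤ (X : ℝ) ^ (κ * Real.log 2 + ε)) := by
  refine ⟨fun r θ hr hθ1 => ?_, ⟨fun θ h => Or.inl ⟨rfl, h⟩, Pool.Agent.Run7.h496.PS.exponent_three,
    Pool.Agent.Run7.h496.PS.exponent_four, fun r θ h h' => Pool.Agent.Run7.h496.PS.exponent_five h h'⟩, ?_, ?_⟩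
  · obtain ⟨δ, hδ, hS⟩ := Pool.Agent.Run7.h496.PS.sparse hr
    have hθ0 := (Pool.Agent.Run7.h496.PS.exponent_pos hr).le
    exact ⟨δ, hδ, fun q c hq κ ε hκ hε h => starts q c r hq θ κ ε δ hθ0 hθ1 hκ hε h hS⟩
  · intro r κ hrκ
    obtain ⟨θ, hθ, hθ1, hκ, hβ⟩ : ∃ θ : ℝ, Exponent r θ ∧ θ < 1 ∧ 0 ≤ κ ∧
        θ + κ * (Real.log (1 + ((3 : ℕ) : ℝ) ^ θ) - θ * Real.log 2) ≤ 9986 / 10000 := by
      rcases hrκ with ⟨rfl, rfl⟩ | ⟨rfl, rfl⟩ | ⟨rfl, rfl⟩
      · exact ⟨3 / 5, Or.inl ⟨rfl, by norm_num⟩, by norm_num, by norm_num, collatz_two.trans (by norm_num)⟩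
      · exact ⟨2 / 9, Pool.Agent.Run7.h496.PS.exponent_three, by norm_num, by norm_num,
          collatz_three.trans (by norm_num)⟩
      · exact ⟨1 / 29, Pool.Agent.Run7.h496.PS.exponent_four, by norm_num, by norm_num, collatz_four⟩
    obtain ⟨δ, hδ, hS⟩ := Pool.Agent.Run7.h496.PS.sparse hθ
    obtain ⟨η, hη, X₀, h⟩ := starts 3 1 r (by decide) θ κ (1 / 10000) δ (Pool.Agent.Run7.h496.PS.exponent_pos hθ).le hθ1
      hκ (by norm_num) (lt_of_le_of_lt hβ (by norm_num)) hS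
    refine ⟨δ, hδ, η, hη, max X₀ 1, fun X hX => (h X ((le_max_left _ _).trans hX)).trans ?_⟩
    have hX1 : (1 : ℝ) ≤ X := by exact_mod_cast (le_max_right _ _).trans hX
    exact Real.rpow_le_rpow_of_exponent_le hX1 ((add_le_add hβ le_rfl).trans (by norm_num))
  · intro r hr q c hq κ ε hκ hκ1 hε
    have hq0 : q ≠ 0 := fun h => by rw [h] at hq; exact absurd hq (by decide)
    obtain ⟨θ, h | h⟩ := small_exponent q κ (min (ε / 2) (1 - κ * Real.log 2)) (lt_min (by linarith) (by linarith))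
    swap
    · exact absurd h hq0
    obtain ⟨h1, h2, h3⟩ := h
    have h4 := min_le_left (ε / 2) (1 - κ * Real.log 2)
    have h5 := min_le_right (ε / 2) (1 - κ * Real.log 2)
    obtain ⟨δ, hδ, hS⟩ := Pool.Agent.Run7.h496.PS.sparse (Pool.Agent.Run7.h496.PS.exponent_five hr h1)
    obtain ⟨η, hη, X₀, h⟩ := starts q c r hq θ κ (ε / 2) δ h1.le h2 hκ (by linarith) (by linarith) hS
    refine ⟨δ, hδ, η, hη, max X₀ 1, fun X hX => (h X ((le_max_left _ _).trans hX)).trans ?_⟩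
    have hX1 : (1 : ℝ) ≤ X := by exact_mod_cast (le_max_right _ _).trans hX
    apply Real.rpow_le_rpow_of_exponent_le hX1
    linarith

end Pool.Agent.Results.MP_b58c63_nt.CollatzTrajectories
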