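import Pool.Agent.Run7.h496.PS.Gb
import Pool.Agent.Run7.h496.PS.Rec

/-!
# Goldbach with a prime in `(√N, 4 √N)`: ALL even members of linear recurrences, for almost all starting values

`Good r δ N`: there are at least `δ 𝔖(N) √N / (log N) ^ 2` primes `p` with `√N < p < 4 √N` (the window of the conjecture)
such that `N - p` has at most `r` prime factors, all of them at least `N ^ (1 / 16) / 2`.
The pair `(r, θ)` is admissible (`Exponent r θ`) if `r = 2`, `θ > 13 / 22`, or `r = 3`, `θ = 2 / 9`, or `r = 4`, `θ = 1 / 29`, or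
`r ≥ 5`, `θ > 0` arbitrary (in general `θ > 2 / Λ_r - 1 / 2`, with Richert's constant `Λ_r`, for `r ≥ 3`).

Let `s`, `t` be coprime positive integers, `x_0 = a`, `x_1 = b`, `x_(n + 2) = s x_(n + 1) + t x_n` (`s = t = 1`: generalised
Fibonacci sequences). For all pairs `a, b ≤ X` but `X ^ (max (1 + θ) (κ θ) + ε)` ALL the even numbers `N = u x_n + w` with
`x_n ≤ X ^ κ`, `1 ≤ u ≤ X ^ η`, `|w| ≤ X ^ η` are `Good r δ`. This is nontrivial for `κ < 2 / θ`, that is for all members up to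
`X ^ (44 / 13 - ε)`, `X ^ (9 - ε)`, `X ^ (58 - ε)` for `r = 2, 3, 4`; for `r ≥ 5` it holds for all members up to `X ^ κ`, `κ`
ARBITRARY, with `X ^ (1 + ε)` exceptional pairs out of `X ^ 2`.

Proof. The exceptional set of the problem has at most `C X ^ θ` elements up to `X` (starting files, `FewExceptionsAllScales`,
`RoughSummandShortPrime`, and `SqrtWindowFewExceptions` of MP_b454d1_nt). A member `x_n = α a + β b`, `(α, β) = 1`, takes a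
given value for at most `X / β + 1` pairs.
-/

set_option autoImplicit false

namespace Pool.Agent.Results.MP_b58c63_nt.LinearRecurrences

open Finset
open Pool.Agent.Run7.h496.PS (Good Exponent)

/-- the sequence with `x_0 = a`, `x_1 = b`, `x_(n+2) = s x_(n+1) + t x_n` -/
def seq (s t a b : ℕ) : ℕ → ℕ
  | 0 => a
  | 1 => b
  | n + 2 => s * seq s t a b (n + 1) + t * seq s t a b n

open Classical in
/-- The pairs `(a, b)` in `[1, X]^2` such that for some member `x_n ≤ X ^ κ` of the sequence, some `1 ≤ u ≤ X ^ η` and some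
integer `w`, `|w| ≤ X ^ η`, the number `N = u x_n + w` is positive and even, but not `Good r δ`. -/
noncomputable def exceptionalPairs (s t r : ℕ) (δ κ η : ℝ) (X : ℕ) : Finset (ℕ × ℕ) :=
  (Icc 1 X ×ˢ Icc 1 X).filter (fun z => ∃ (n u N : ℕ) (w : ℤ), (seq s t z.1 z.2 n : ℝ) ≤ (X : ℝ) ^ κ ∧
    1 ≤ u ∧ (u : ℝ) ≤ (X : ℝ) ^ η ∧ |(w : ℝ)| ≤ (X : ℝ) ^ η ∧ 1 ≤ N ∧ (N : ℤ) = u * (seq s t z.1 z.2 n : ℕ) + w ∧
    Even N ∧ ¬ Good r δ N)

theorem seq_eq (s t a b : ℕ) : ∀ n, seq s t a b n = _root_.Run7.h469.LF.seq s t a b n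
  | 0 => rfl
  | 1 => rfl
  | n + 2 => by rw [seq, _root_.Run7.h469.LF.seq, seq_eq s t a b n, seq_eq s t a b (n + 1)]

theorem pairs (s t r : ℕ) (hs : 1 ≤ s) (ht : 1 ≤ t) (hst : Nat.Coprime s t) (θ κ ε δ : ℝ) (hθ0 : 0 ≤ θ) (hθ1 : θ < 1)
    (hκ0 : 0 ≤ κ) (hε : 0 < ε) (hE : Pool.Agent.Run7.h496.PS.Sparse θ (fun N => Even N ∧ ¬ Good r δ N)) :
    ∃ η : ℝ, 0 < η ∧ ∃ X₀ : ℕ, ∀ X : ℕ, X₀ ≤ X → ((exceptionalPairs s t r δ κ η X).card : ℝ) ≤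
      (X : ℝ) ^ (max (1 + θ) (κ * θ) + ε) := by
  obtain ⟨η, hη, X₀, h⟩ := Pool.Agent.Run7.h496.PS.recurrences hs ht hst θ κ ε hθ0 hθ1 hκ0 hε hE
  refine ⟨η, hη, X₀, fun X hX => ?_⟩
  refine le_trans ?_ (h X hX)
  apply Nat.cast_le.2
  apply card_le_card
  intro z hz
  obtain ⟨h1, n, u, N, w, h2, h3, h4, h5, h6, h7, h8⟩ := (@mem_filter (ℕ × ℕ) _ (_) _ _).1 hz
  refine (@mem_filter (ℕ × ℕ) _ (_) _ _).2 ?_
  rw [seq_eq] at h2 h7
  exact ⟨h1, n, u, N, w, h2, h3, h4, h5, h6, h7, h8⟩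

/-- **Goldbach with a prime in `(√N, 4 √N)` along recurrences.** Part 1: the general bound. Part 2: the exponents. Part 3:
power-saving exceptional sets for all members up to `X ^ κ`, `κ < 44 / 13`, `9`, `58` for `r = 2`, `3`, `4`. Part 4: five prime
factors, `κ` arbitrary. -/
theorem result :
    (∀ (r : ℕ) (θ : ℝ), Exponent r θ → θ < 1 → ∃ δ : ℝ, 0 < δ ∧
      ∀ s t : ℕ, 1 ≤ s → 1 ≤ t → Nat.Coprime s t → ∀ κ ε : ℝ, 0 ≤ κ → 0 < ε →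
        ∃ η : ℝ, 0 < η ∧ ∃ X₀ : ℕ, ∀ X : ℕ, X₀ ≤ X → ((exceptionalPairs s t r δ κ η X).card : ℝ) ≤
          (X : ℝ) ^ (max (1 + θ) (κ * θ) + ε)) ∧
    ((∀ θ : ℝ, 13 / 22 < θ → Exponent 2 θ) ∧ Exponent 3 (2 / 9) ∧ Exponent 4 (1 / 29) ∧
      ∀ (r : ℕ) (θ : ℝ), 5 ≤ r → 0 < θ → Exponent r θ) ∧
    (∀ (r : ℕ) (κ : ℝ), (r = 2 ∧ κ < 44 / 13 ∨ r = 3 ∧ κ < 9 ∨ r = 4 ∧ κ < 58) → 0 ≤ κ →
      ∃ δ : ℝ, 0 < δ ∧ ∀ s t : ℕ, 1 ≤ s → 1 ≤ t → Nat.Coprime s t →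
        ∃ η : ℝ, 0 < η ∧ ∃ X₀ : ℕ, ∀ X : ℕ, X₀ ≤ X →
          ((exceptionalPairs s t r δ κ η X).card : ℝ) ≤ (X : ℝ) ^ (2 - η)) ∧
    (∀ r : ℕ, 5 ≤ r → ∀ s t : ℕ, 1 ≤ s → 1 ≤ t → Nat.Coprime s t → ∀ κ ε : ℝ, 0 ≤ κ → 0 < ε →
      ∃ δ : ℝ, 0 < δ ∧ ∃ η : ℝ, 0 < η ∧ ∃ X₀ : ℕ, ∀ X : ℕ, X₀ ≤ X →
        ((exceptionalPairs s t r δ κ η X).card : ℝ) ≤ (X : ℝ) ^ (1 + ε)) := by
  refine ⟨fun r θ hr hθ1 => ?_, ⟨fun θ h => Or.inl ⟨rfl, h⟩, Pool.Agent.Run7.h496.PS.exponent_three,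
    Pool.Agent.Run7.h496.PS.exponent_four, fun r θ h h' => Pool.Agent.Run7.h496.PS.exponent_five h h'⟩, ?_, ?_⟩
  · obtain ⟨δ, hδ, hS⟩ := Pool.Agent.Run7.h496.PS.sparse hr
    have hθ0 := (Pool.Agent.Run7.h496.PS.exponent_pos hr).le
    exact ⟨δ, hδ, fun s t hs ht hst κ ε hκ hε => pairs s t r hs ht hst θ κ ε δ hθ0 hθ1 hκ hε hS⟩
  · intro r κ hrκ hκ0
    obtain ⟨θ, hθ, hθ1, hκ⟩ : ∃ θ : ℝ, Exponent r θ ∧ θ < 1 ∧ κ * θ < 2 := by
      rcases hrκ with ⟨rfl, h⟩ | ⟨rfl, h⟩ | ⟨rfl, h⟩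
      · obtain ⟨ρ, hρ⟩ : ∃ ρ : ℝ, ρ = min (1 / 10) ((2 - κ * (13 / 22)) / 8) := ⟨_, rfl⟩
        have h1 : 0 < ρ := by rw [hρ]; exact lt_min (by norm_num) (by linarith)
        have h2 : ρ ≤ 1 / 10 := by rw [hρ]; exact min_le_left _ _
        have h3 : ρ ≤ (2 - κ * (13 / 22)) / 8 := by rw [hρ]; exact min_le_right _ _
        refine ⟨13 / 22 + ρ, Or.inl ⟨rfl, by linarith⟩, by linarith, ?_⟩
        have h4 : κ * ρ ≤ 44 / 13 * ρ := mul_le_mul_of_nonneg_right h.le h1.le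
        nlinarith
      · exact ⟨2 / 9, Pool.Agent.Run7.h496.PS.exponent_three, by norm_num, by linarith⟩
      · exact ⟨1 / 29, Pool.Agent.Run7.h496.PS.exponent_four, by norm_num, by linarith⟩
    obtain ⟨δ, hδ, hS⟩ := Pool.Agent.Run7.h496.PS.sparse hθ
    refine ⟨δ, hδ, fun s t hs ht hst => ?_⟩
    have hθ0 := (Pool.Agent.Run7.h496.PS.exponent_pos hθ).le
    obtain ⟨β, hβ⟩ : ∃ β : ℝ, β = max (1 + θ) (κ * θ) := ⟨_, rfl⟩
    have hβ2 : β < 2 := by rw [hβ]; exact max_lt (by linarith) hκ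
    obtain ⟨η, hη, X₀, h⟩ := pairs s t r hs ht hst θ κ ((2 - β) / 2) δ hθ0 hθ1 hκ0 (by linarith) hS
    refine ⟨min η ((2 - β) / 2), lt_min hη (by linarith), max X₀ 1, fun X hX => ?_⟩
    have hX1 : (1 : ℝ) ≤ X := by exact_mod_cast (le_max_right _ _).trans hX
    have hmono : ((exceptionalPairs s t r δ κ (min η ((2 - β) / 2)) X).card : ℝ) ≤
        ((exceptionalPairs s t r δ κ η X).card : ℝ) := by
      apply Nat.cast_le.2
      apply card_le_card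
      intro z hz
      obtain ⟨h1, n, u, N, w, h2, h3, h4, h5, h6, h7, h8⟩ := (@mem_filter (ℕ × ℕ) _ (_) _ _).1 hz
      have hle : (X : ℝ) ^ (min η ((2 - β) / 2)) ≤ (X : ℝ) ^ η :=
        Real.rpow_le_rpow_of_exponent_le hX1 (min_le_left _ _)
      exact (@mem_filter (ℕ × ℕ) _ (_) _ _).2 ⟨h1, n, u, N, w, h2, h3, h4.trans hle, h5.trans hle, h6, h7, h8⟩
    refine hmono.trans ((h X ((le_max_left _ _).trans hX)).trans ?_)
    apply Real.rpow_le_rpow_of_exponent_le hX1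
    have := min_le_right η ((2 - β) / 2)
    rw [← hβ]
    linarith
  · intro r hr s t hs ht hst κ ε hκ hε
    obtain ⟨θ, hθ⟩ : ∃ θ, θ = min (ε / 2) (1 / (κ + 2)) := ⟨_, rfl⟩
    have hθ0 : 0 < θ := by rw [hθ]; exact lt_min (by linarith) (by positivity)
    have hθ1 : θ ≤ ε / 2 := by rw [hθ]; exact min_le_left _ _
    have hθ2 : θ ≤ 1 / (κ + 2) := by rw [hθ]; exact min_le_right _ _
    have hθ3 : θ * (κ + 2) ≤ 1 := by rwa [le_div_iff₀ (by linarith)] at hθ2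
    have hθ4 : θ < 1 := by nlinarith
    obtain ⟨δ, hδ, hS⟩ := Pool.Agent.Run7.h496.PS.sparse (Pool.Agent.Run7.h496.PS.exponent_five hr hθ0)
    obtain ⟨η, hη, X₀, h⟩ := pairs s t r hs ht hst θ κ (ε / 2) δ hθ0.le hθ4 hκ (by linarith) hS
    refine ⟨δ, hδ, η, hη, max X₀ 1, fun X hX => (h X ((le_max_left _ _).trans hX)).trans ?_⟩
    have hX1 : (1 : ℝ) ≤ X := by exact_mod_cast (le_max_right _ _).trans hX
    apply Real.rpow_le_rpow_of_exponent_le hX1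
    have : max (1 + θ) (κ * θ) ≤ 1 + θ := max_le le_rfl (by linarith)
    linarith

end Pool.Agent.Results.MP_b58c63_nt.LinearRecurrences
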